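import Pool.Agent.H68.L.R_seed8.W313.HB.Stm
import Pool.Agent.H68.L.R_seed8.W313.BMX.Final

set_option autoImplicit false

/-! The product formula for Hilbert symbols of all pairs of integers. -/

namespace Pool.Agent.W351.HB.PF

open Pool.Agent.W313.HB Pool.Agent.W313.BMX Pool.Agent.W928.BMX

lemma symm_even {α : Type} (s t : Set α) (hs : s.Finite) (ht : t.Finite) (es : Even s.ncard)
    (et : Even t.ncard) : (symmDiff s t).Finite ∧ Even (symmDiff s t).ncard := by
  have hf1 : (s \ t).Finite := hs.subset Set.diff_subset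
  have hf2 : (t \ s).Finite := ht.subset Set.diff_subset
  have h1 := Set.ncard_inter_add_ncard_diff_eq_ncard s t hs
  have h2 := Set.ncard_inter_add_ncard_diff_eq_ncard t s ht
  have h3 : (symmDiff s t).ncard = (s \ t).ncard + (t \ s).ncard := by
    rw [Set.symmDiff_def]
    exact Set.ncard_union_eq disjoint_sdiff_sdiff hf1 hf2
  refine ⟨?_, ?_⟩
  · rw [Set.symmDiff_def]
    exact hf1.union hf2
  · rw [h3]
    rw [Set.inter_comm t s] at h2
    obtain ⟨a, ha⟩ := es
    obtain ⟨b, hb⟩ := et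
    exact ⟨a + b - (s ∩ t).ncard, by omega⟩

/-- the ramification set is finite of even cardinality -/
def Ev (n b : ℤ) : Prop := (ram (diag n) b).Finite ∧ Even (ram (diag n) b).ncard

lemma mem_none (n b : ℤ) : none ∈ ram (diag n) b ↔ ¬ Splits (n : ℝ) (b : ℝ) := Iff.rfl

lemma mem_some (n b : ℤ) (p : Nat.Primes) :
    some p ∈ ram (diag n) b ↔ ¬ Splits (n : ℚ_[(p : ℕ)]) (b : ℚ_[(p : ℕ)]) := Iff.rfl

lemma bil (h1 : S_BILO) (h2 : S_BILT) (p : Nat.Primes) (a b c : ℤ) (ha : a ≠ 0) (hb : b ≠ 0)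
    (hc : c ≠ 0) : (Splits (a : ℚ_[(p : ℕ)]) ((b * c : ℤ) : ℚ_[(p : ℕ)]) ↔
    (Splits (a : ℚ_[(p : ℕ)]) (b : ℚ_[(p : ℕ)]) ↔
      Splits (a : ℚ_[(p : ℕ)]) (c : ℚ_[(p : ℕ)]))) := by
  rcases p with ⟨p, hp⟩
  by_cases hp2 : p = 2
  · subst hp2
    exact h2 a b c ha hb hc
  · haveI : Fact p.Prime := ⟨hp⟩
    exact h1 p hp2 a b c ha hb hc

lemma ram_mul (h1 : S_BILO) (h2 : S_BILT) (a b c : ℤ) (ha : a ≠ 0) (hb : b ≠ 0) (hc : c ≠ 0) :
    ram (diag a) (b * c) = symmDiff (ram (diag a) b) (ram (diag a) c) := by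
  ext v
  rw [Set.mem_symmDiff]
  cases v with
  | none =>
    rw [mem_none, mem_none, mem_none, splits_real a (b * c) ha (mul_ne_zero hb hc),
      splits_real a b ha hb, splits_real a c ha hc, mul_neg_iff]
    omega
  | some p =>
    have h := bil h1 h2 p a b c ha hb hc
    rw [mem_some, mem_some, mem_some]
    tauto

lemma ev_mul (h1 : S_BILO) (h2 : S_BILT) (a b c : ℤ) (ha : a ≠ 0) (hb : b ≠ 0) (hc : c ≠ 0)
    (eb : Ev a b) (ec : Ev a c) : Ev a (b * c) := by
  unfold Ev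
  rw [ram_mul h1 h2 a b c ha hb hc]
  exact symm_even _ _ eb.1 ec.1 eb.2 ec.2

lemma splits_one {F : Type} [Field F] (a : F) : Splits a ((1 : ℤ) : F) :=
  ⟨0, 1, 1, Or.inr (Or.inl one_ne_zero), by simp⟩

lemma ev_one (a : ℤ) : Ev a 1 := by
  have h : ram (diag a) 1 = ∅ := by
    ext v
    cases v with
    | none =>
      rw [mem_none]
      simp only [Set.mem_empty_iff_false, iff_false, not_not]
      exact splits_one _
    | some p =>
      rw [mem_some]
      simp only [Set.mem_empty_iff_false, iff_false, not_not]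
      exact splits_one _
  unfold Ev
  rw [h]
  simp

lemma ev_prime (h1 : S_BILO) (h2 : S_BILT) (a : ℤ) (ha : Squarefree a) (l : ℕ) (hl : l.Prime) :
    Ev a (l : ℤ) := by
  have ha0 : a ≠ 0 := ha.ne_zero
  by_cases hl2 : l = 2
  · subst hl2
    exact hrec a ha 2 (Or.inr (Or.inl rfl))
  · have hodd : l % 2 = 1 := by
      rcases hl.eq_two_or_odd with h | h
      · exact absurd h hl2
      · exact h
    by_cases h4 : l % 4 = 1
    · refine hrec a ha (l : ℤ) (Or.inr (Or.inr ⟨?_, by omega⟩))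
      simpa using hl
    · have h5 : Ev a (-(l : ℤ)) := by
        refine hrec a ha (-(l : ℤ)) (Or.inr (Or.inr ⟨?_, by omega⟩))
        simpa using hl
      have h6 : Ev a (-1) := hrec a ha (-1) (Or.inl rfl)
      have hl0 : (l : ℤ) ≠ 0 := by exact_mod_cast hl.ne_zero
      have h7 := ev_mul h1 h2 a (-1) (-(l : ℤ)) ha0 (by norm_num) (neg_ne_zero.2 hl0) h6 h5
      have h8 : (-1 : ℤ) * (-(l : ℤ)) = (l : ℤ) := by ring
      rw [h8] at h7
      exact h7

lemma ev_nat (h1 : S_BILO) (h2 : S_BILT) (a : ℤ) (ha : Squarefree a) (b : ℕ) (hb : b ≠ 0) :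
    Ev a (b : ℤ) := by
  have ha0 : a ≠ 0 := ha.ne_zero
  revert hb
  refine induction_on_primes (motive := fun b : ℕ => b ≠ 0 → Ev a (b : ℤ)) ?_ ?_ ?_ b
  · intro h
    exact absurd rfl h
  · intro _
    exact_mod_cast ev_one a
  · intro p c hp ih hpc
    have hc : c ≠ 0 := by
      rintro rfl
      exact hpc (by simp)
    have hp0 : (p : ℤ) ≠ 0 := by exact_mod_cast hp.ne_zero
    have hc0 : (c : ℤ) ≠ 0 := by exact_mod_cast hc
    rw [Nat.cast_mul]
    exact ev_mul h1 h2 a p c ha0 hp0 hc0 (ev_prime h1 h2 a ha p hp) (ih hc)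

lemma ev_int (h1 : S_BILO) (h2 : S_BILT) (a : ℤ) (ha : Squarefree a) (b : ℤ) (hb : b ≠ 0) :
    Ev a b := by
  have ha0 : a ≠ 0 := ha.ne_zero
  have hn := ev_nat h1 h2 a ha b.natAbs (Int.natAbs_ne_zero.2 hb)
  rcases Int.natAbs_eq b with h | h
  · rw [h]
    exact hn
  · have h7 := ev_mul h1 h2 a (-1) (b.natAbs : ℤ) ha0 (by norm_num)
      (by exact_mod_cast Int.natAbs_ne_zero.2 hb) (hrec a ha (-1) (Or.inl rfl)) hn
    rw [h]
    have h8 : (-1 : ℤ) * (b.natAbs : ℤ) = -(b.natAbs : ℤ) := by ring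
    rw [h8] at h7
    exact h7

lemma exists_sqf (a : ℤ) (ha : a ≠ 0) : ∃ n c : ℤ, Squarefree n ∧ c ≠ 0 ∧ a = n * c ^ 2 := by
  obtain ⟨m, c, hmc, hm⟩ := Nat.sq_mul_squarefree a.natAbs
  have hna : a.natAbs ≠ 0 := Int.natAbs_ne_zero.2 ha
  have hc0 : (c : ℤ) ≠ 0 := by
    intro h
    have h' : c = 0 := by exact_mod_cast h
    rw [h'] at hmc
    exact hna (by rw [← hmc]; simp)
  have hmi : Squarefree (m : ℤ) := by
    rw [← Int.squarefree_natAbs]
    simpa using hm
  have h2 : (a.natAbs : ℤ) = (m : ℤ) * (c : ℤ) ^ 2 := by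
    rw [← hmc]
    push_cast
    ring
  rcases Int.natAbs_eq a with h | h
  · exact ⟨m, c, hmi, hc0, by rw [h, h2]⟩
  · refine ⟨-m, c, ?_, hc0, ?_⟩
    · rw [← Int.squarefree_natAbs, Int.natAbs_neg, Int.squarefree_natAbs]
      exact hmi
    rw [h, h2]
    ring

lemma ram_sq (n c b : ℤ) (hc : c ≠ 0) : ram (diag (n * c ^ 2)) b = ram (diag n) b := by
  ext v
  cases v with
  | none =>
    rw [mem_none, mem_none]
    have hc' : (c : ℝ) ≠ 0 := by exact_mod_cast hc
    have h := splits_sq (a := (n : ℝ)) (b := (b : ℝ)) hc'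
    push_cast
    rw [h]
  | some p =>
    rw [mem_some, mem_some]
    have hc' : (c : ℚ_[(p : ℕ)]) ≠ 0 := by exact_mod_cast hc
    have h := splits_sq (a := (n : ℚ_[(p : ℕ)])) (b := (b : ℚ_[(p : ℕ)])) hc'
    push_cast
    rw [h]

theorem ev_all (h1 : S_BILO) (h2 : S_BILT) (a b : ℤ) (ha : a ≠ 0) (hb : b ≠ 0) : Ev a b := by
  obtain ⟨n, c, hn, hc, rfl⟩ := exists_sqf a ha
  unfold Ev
  rw [ram_sq n c b hc]
  exact ev_int h1 h2 n hn b hb

theorem pf_ (h1 : S_BILO) (h2 : S_BILT) : S_PF := by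
  intro a b ha hb q hq hre hp
  by_contra hno
  have he := ev_all h1 h2 a b ha hb
  have hr : ram (diag a) b = {some ⟨q, hq.out⟩} := by
    ext v
    rw [Set.mem_singleton_iff]
    cases v with
    | none =>
      rw [mem_none]
      simp only [reduceCtorEq, iff_false, not_not]
      exact hre
    | some p =>
      rw [mem_some]
      rcases p with ⟨p, hp'⟩
      by_cases hpq : p = q
      · subst hpq
        simp only [iff_true]
        exact hno
      · haveI : Fact p.Prime := ⟨hp'⟩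
        have h3 := hp p hpq
        constructor
        · intro h4
          exact absurd h3 h4
        · intro h4
          exfalso
          apply hpq
          have h5 := Option.some.inj h4
          exact congrArg Subtype.val h5
  have h4 := he.2
  rw [hr, Set.ncard_singleton] at h4
  exact absurd h4 (by decide)

end Pool.Agent.W351.HB.PF
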